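import Mathlib
import Pool.Agent.N549.SG.Stm

set_option autoImplicit false

namespace Pool.Agent.N624.SG

open Finset

open Pool.Agent.N549.SG (S_PB)

/-- lower bound of the sum -/
theorem sum_lower (N : ℝ) (hN : 1 ≤ N) (m : ℕ) :
    (m : ℝ) - N * Real.log (1 + m / N) ≤ ∑ j ∈ range (m + 1), (j : ℝ) / (j + N) := by
  have hN0 : (0 : ℝ) < N := by linarith
  induction m with
  | zero => simp
  | succ m ih =>
    rw [sum_range_succ]
    have hm : (0 : ℝ) ≤ m := Nat.cast_nonneg m
    have e1 : 1 + ((m + 1 : ℕ) : ℝ) / N = (1 + m / N) * ((N + m + 1) / (N + m)) := by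
      push_cast
      field_simp
      ring
    have p1 : 0 < 1 + (m : ℝ) / N := by positivity
    have p2 : 0 < (N + m + 1) / (N + m) := by positivity
    have e2 : Real.log (1 + ((m + 1 : ℕ) : ℝ) / N) =
        Real.log (1 + m / N) + Real.log ((N + m + 1) / (N + m)) := by
      rw [e1, Real.log_mul p1.ne' p2.ne']
    have e3 : 1 / (N + m + 1) ≤ Real.log ((N + m + 1) / (N + m)) := by
      have h := Real.log_le_sub_one_of_pos (show 0 < (N + m) / (N + m + 1) by positivity)
      have h2 : Real.log ((N + m + 1) / (N + m)) = - Real.log ((N + m) / (N + m + 1)) := by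
        rw [← Real.log_inv, inv_div]
      have h3 : (N + m) / (N + m + 1) - 1 = - (1 / (N + m + 1)) := by
        field_simp
        ring
      rw [h2]
      linarith
    have e4 : (((m + 1 : ℕ) : ℝ)) / (((m + 1 : ℕ) : ℝ) + N) = 1 - N * (1 / (N + m + 1)) := by
      push_cast
      field_simp
      ring
    rw [e2, e4]
    have e5 := mul_le_mul_of_nonneg_left e3 hN0.le
    push_cast
    linarith

/-- SG/PB -/
theorem pb : S_PB := by
  intro N x s μ τ P hN hx0 hx1 hs hμ hτ hP0 hP1 hrec
  have hN0 : (0 : ℝ) < N := by linarith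
  have hx2 : 0 < 1 - x ^ 2 := by nlinarith
  have hs0 : 0 < s := by rw [hs]; exact Real.sqrt_pos.mpr hx2
  have hs2 : s ^ 2 = 1 - x ^ 2 := by rw [hs]; exact Real.sq_sqrt hx2.le
  have hs1 : s < 1 := by nlinarith
  have hμ0 : 0 < μ := by
    rw [hμ]
    have : 1 < 1 / s := by rw [lt_div_iff₀ hs0]; linarith
    linarith
  have hτ0 : 0 < τ := by rw [hτ]; positivity
  have hμs : μ * (2 * s) = 1 - s := by rw [hμ]; field_simp
  set c := (1 - s) / x with hc
  have hc0 : 0 < c := by rw [hc]; apply div_pos <;> linarith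
  have hcx : c * x = 1 - s := by rw [hc]; field_simp
  have hxx : x ^ 2 = (1 - s) * (1 + s) := by nlinarith
  have hcc : c ^ 2 * (1 + s) = 1 - s := by
    have h1 : c ^ 2 * x ^ 2 = (1 - s) ^ 2 := by rw [← hcx]; ring
    rw [hxx] at h1
    have h2 : (1 - s) * (c ^ 2 * (1 + s) - (1 - s)) = 0 := by nlinarith
    rcases mul_eq_zero.mp h2 with h | h
    · linarith
    · linarith
  have hclex : c ≤ x := by
    rw [hc, div_le_iff₀ hx0]
    nlinarith
  -- key identity: c (x - c) = μ (c^2 - 2 c x + 1)
  have hkey : c * (x - c) = μ * (c ^ 2 - 2 * (c * x) + 1) := by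
    have h1 : (1 + s) * (c * (x - c)) = (1 - s) * s := by
      have : (1 + s) * (c * (x - c)) = (1 + s) * (c * x) - c ^ 2 * (1 + s) := by ring
      rw [this, hcx, hcc]; ring
    have h2 : (1 + s) * (c ^ 2 - 2 * (c * x) + 1) = 2 * s ^ 2 := by
      have : (1 + s) * (c ^ 2 - 2 * (c * x) + 1) = c ^ 2 * (1 + s) - 2 * (1 + s) * (c * x) + (1 + s) := by
        ring
      rw [this, hcx, hcc]; ring
    have h3 : (1 + s) * (c * (x - c) - μ * (c ^ 2 - 2 * (c * x) + 1)) = 0 := by
      have : (1 + s) * (c * (x - c) - μ * (c ^ 2 - 2 * (c * x) + 1)) =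
        (1 + s) * (c * (x - c)) - μ * ((1 + s) * (c ^ 2 - 2 * (c * x) + 1)) := by ring
      rw [this, h1, h2]
      have : (1 - s) * s - μ * (2 * s ^ 2) = (1 - s) * s - (μ * (2 * s)) * s := by ring
      rw [this, hμs]; ring
    rcases mul_eq_zero.mp h3 with h | h
    · linarith
    · linarith
  have hD : 0 < c ^ 2 - 2 * (c * x) + 1 := by
    have h2 : (1 + s) * (c ^ 2 - 2 * (c * x) + 1) = 2 * s ^ 2 := by
      have : (1 + s) * (c ^ 2 - 2 * (c * x) + 1) = c ^ 2 * (1 + s) - 2 * (1 + s) * (c * x) + (1 + s) := by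
        ring
      rw [this, hcx, hcc]; ring
    by_contra h
    push Not at h
    have : (1 + s) * (c ^ 2 - 2 * (c * x) + 1) ≤ 0 :=
      mul_nonpos_of_nonneg_of_nonpos (by linarith) h
    nlinarith
  set M := ⌊N * μ⌋₊ with hM
  have hMle : (M : ℝ) ≤ N * μ := Nat.floor_le (by positivity)
  have hMlt : N * μ < M + 1 := Nat.lt_floor_add_one _
  -- step 1
  have step1 : ∀ m : ℕ, m ≤ M → 0 < P m ∧ c * P m ≤ P (m + 1) := by
    intro m
    induction m with
    | zero =>
      intro _
      rw [hP0]
      simp only [zero_add, hP1, mul_one]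
      exact ⟨one_pos, hclex⟩
    | succ m ih =>
      intro hm
      obtain ⟨h1, h2⟩ := ih (by omega)
      have h3 : 0 < P (m + 1) := lt_of_lt_of_le (mul_pos hc0 h1) h2
      refine ⟨h3, ?_⟩
      have hr := hrec (m + 1) (by omega)
      simp only [Nat.add_sub_cancel] at hr
      have hmM : (((m + 1 : ℕ)) : ℝ) ≤ N * μ := le_trans (by exact_mod_cast hm) hMle
      set k : ℝ := ((m + 1 : ℕ) : ℝ) with hk
      have hk0 : 0 < k := by rw [hk]; positivity
      -- want c P(m+1) ≤ P (m+2)
      have h4 : 0 < k + N := by linarith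
      have h5 : c * (k + N) * (c * P (m + 1)) ≤ c * ((k + N) * P (m + 1 + 1)) := by
        rw [hr]
        have h6 : k * (c * P m) ≤ k * P (m + 1) := mul_le_mul_of_nonneg_left h2 hk0.le
        have h7 : k * (c ^ 2 - 2 * (c * x) + 1) ≤ N * (c * (x - c)) := by
          rw [hkey]
          calc k * (c ^ 2 - 2 * (c * x) + 1) ≤ (N * μ) * (c ^ 2 - 2 * (c * x) + 1) :=
                mul_le_mul_of_nonneg_right hmM hD.le
            _ = _ := by ring
        have h8 := mul_le_mul_of_nonneg_right h7 h3.le
        linarith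
      have h9 : (c * (k + N)) * (c * P (m + 1)) ≤ (c * (k + N)) * P (m + 1 + 1) := by
        calc (c * (k + N)) * (c * P (m + 1)) ≤ c * ((k + N) * P (m + 1 + 1)) := h5
          _ = (c * (k + N)) * P (m + 1 + 1) := by ring
      exact le_of_mul_le_mul_left h9 (by positivity)
  have pos : ∀ m : ℕ, m ≤ M + 1 → 0 < P m := by
    intro m hm
    rcases Nat.lt_or_ge m (M + 1) with h | h
    · exact (step1 m (by omega)).1
    · have : m = M + 1 := by omega
      rw [this]
      have h1 := step1 M le_rfl
      exact lt_of_lt_of_le (mul_pos hc0 h1.1) h1.2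
  -- step 2
  have step2 : ∀ m : ℕ, m ≤ M → P (m + 1) ≤ x * Real.exp (-τ * (m / (m + N))) * P m := by
    intro m
    induction m with
    | zero =>
      intro _
      rw [hP0]
      simp [hP1]
    | succ m ih =>
      intro hm
      have ih' := ih (by omega)
      have p1 := pos m (by omega)
      have p2 := pos (m + 1) (by omega)
      have hq : P (m + 1) ≤ x * P m := by
        refine le_trans ih' ?_
        have : Real.exp (-τ * ((m : ℝ) / (m + N))) ≤ 1 := by
          rw [Real.exp_le_one_iff]
          have : 0 ≤ τ * ((m : ℝ) / (m + N)) := by positivity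
          linarith
        have h : x * Real.exp (-τ * ((m : ℝ) / (m + N))) ≤ x * 1 :=
          mul_le_mul_of_nonneg_left this hx0.le
        calc x * Real.exp (-τ * ((m : ℝ) / (m + N))) * P m ≤ x * 1 * P m :=
              mul_le_mul_of_nonneg_right h p1.le
          _ = x * P m := by ring
      have hr := hrec (m + 1) (by omega)
      simp only [Nat.add_sub_cancel] at hr
      set k : ℝ := ((m + 1 : ℕ) : ℝ) with hk
      have hk0 : 0 < k := by rw [hk]; positivity
      have h4 : 0 < k + N := by linarith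
      have h5 : P (m + 1 + 1) ≤ x * (1 - τ * (k / (k + N))) * P (m + 1) := by
        have h6 : k * P (m + 1) ≤ k * (x * P m) := mul_le_mul_of_nonneg_left hq hk0.le
        have h7 : x * ((k + N) * P (m + 1 + 1)) ≤
            x * ((k + N) * (x * (1 - τ * (k / (k + N))) * P (m + 1))) := by
          rw [hr]
          have e : x * ((k + N) * (x * (1 - τ * (k / (k + N))) * P (m + 1))) =
              ((k + N) * x ^ 2 - k * (1 - x ^ 2)) * P (m + 1) := by
            rw [hτ]
            field_simp
          rw [e]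
          nlinarith
        have h8 : (x * (k + N)) * P (m + 1 + 1) ≤
            (x * (k + N)) * (x * (1 - τ * (k / (k + N))) * P (m + 1)) := by
          calc (x * (k + N)) * P (m + 1 + 1) = x * ((k + N) * P (m + 1 + 1)) := by ring
            _ ≤ _ := h7
            _ = _ := by ring
        exact le_of_mul_le_mul_left h8 (by positivity)
      refine le_trans h5 ?_
      have h10 : 1 - τ * (k / (k + N)) ≤ Real.exp (-τ * (k / (k + N))) := by
        have := Real.add_one_le_exp (-τ * (k / (k + N)))
        linarith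
      exact mul_le_mul_of_nonneg_right (mul_le_mul_of_nonneg_left h10 hx0.le) p2.le
  have prod : ∀ m : ℕ, m ≤ M → P m ≤ x ^ m * Real.exp (-τ * ∑ j ∈ range m, (j : ℝ) / (j + N)) := by
    intro m
    induction m with
    | zero => intro _; simp [hP0]
    | succ m ih =>
      intro hm
      have ih' := ih (by omega)
      refine le_trans (step2 m (by omega)) ?_
      rw [sum_range_succ, mul_add, Real.exp_add, pow_succ]
      calc x * Real.exp (-τ * ((m : ℝ) / (m + N))) * P m
          ≤ x * Real.exp (-τ * ((m : ℝ) / (m + N))) *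
            (x ^ m * Real.exp (-τ * ∑ j ∈ range m, (j : ℝ) / (j + N))) :=
            mul_le_mul_of_nonneg_left ih' (by positivity)
        _ = _ := by ring
  have hsum : N * (μ - Real.log (1 + μ)) - 2 ≤ ∑ j ∈ range M, (j : ℝ) / (j + N) := by
    rcases Nat.eq_zero_or_pos M with h0 | h0
    · rw [h0] at hMlt ⊢
      simp only [range_zero, sum_empty]
      have : 0 ≤ Real.log (1 + μ) := Real.log_nonneg (by linarith)
      have h1 : 0 ≤ N * Real.log (1 + μ) := by positivity
      push_cast at hMlt
      nlinarith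
    · obtain ⟨m, hm⟩ : ∃ m, M = m + 1 := ⟨M - 1, by omega⟩
      rw [hm]
      refine le_trans ?_ (sum_lower N hN m)
      rw [hm] at hMle hMlt
      push_cast at hMle hMlt
      have h1 : (m : ℝ) / N ≤ μ := by
        rw [div_le_iff₀ hN0]; linarith
      have h2 : Real.log (1 + m / N) ≤ Real.log (1 + μ) := by
        apply Real.log_le_log (by positivity)
        linarith
      have h3 : N * Real.log (1 + m / N) ≤ N * Real.log (1 + μ) :=
        mul_le_mul_of_nonneg_left h2 hN0.le
      linarith
  have hlogx : Real.log x < 0 := Real.log_neg hx0 hx1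
  have hPM : P M ≤ Real.exp (2 * τ) / x *
      Real.exp (-(μ * Real.log (1 / x) + τ * (μ - Real.log (1 + μ))) * N) := by
    refine le_trans (prod M le_rfl) ?_
    have e1 : x ^ M = Real.exp (M * Real.log x) := by
      rw [← Real.log_pow, Real.exp_log (by positivity)]
    have e2 : Real.exp (2 * τ) / x = Real.exp (2 * τ - Real.log x) := by
      rw [Real.exp_sub, Real.exp_log hx0]
    rw [e1, e2, ← Real.exp_add, ← Real.exp_add, Real.exp_le_exp, one_div, Real.log_inv]
    have h1 : (M : ℝ) * Real.log x ≤ (N * μ - 1) * Real.log x := by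
      apply mul_le_mul_of_nonpos_right _ hlogx.le
      linarith
    have h2 : -τ * ∑ j ∈ range M, (j : ℝ) / (j + N) ≤ -τ * (N * (μ - Real.log (1 + μ)) - 2) := by
      apply mul_le_mul_of_nonpos_left hsum
      linarith
    nlinarith
  -- energy
  have energy : ∀ m : ℕ, 1 ≤ m →
      P (m + 1) ^ 2 + P m ^ 2 - 2 * x * P (m + 1) * P m ≤
        P m ^ 2 + P (m - 1) ^ 2 - 2 * x * P m * P (m - 1) := by
    intro m hm
    have hr := hrec m hm
    have hm0 : (0 : ℝ) ≤ m := Nat.cast_nonneg m
    have h1 : (2 * m + N) * (P (m + 1) + P (m - 1) - 2 * x * P m) = - N * (P (m + 1) - P (m - 1)) := by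
      nlinarith
    have h2 : (2 * m + N) * ((P (m + 1) ^ 2 + P m ^ 2 - 2 * x * P (m + 1) * P m) -
        (P m ^ 2 + P (m - 1) ^ 2 - 2 * x * P m * P (m - 1))) = -N * (P (m + 1) - P (m - 1)) ^ 2 := by
      have : (2 * m + N) * ((P (m + 1) ^ 2 + P m ^ 2 - 2 * x * P (m + 1) * P m) -
        (P m ^ 2 + P (m - 1) ^ 2 - 2 * x * P m * P (m - 1))) =
        ((2 * m + N) * (P (m + 1) + P (m - 1) - 2 * x * P m)) * (P (m + 1) - P (m - 1)) := by ring
      rw [this, h1]; ring
    by_contra hcon
    push Not at hcon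
    have h3 : 0 < (2 * m + N) * ((P (m + 1) ^ 2 + P m ^ 2 - 2 * x * P (m + 1) * P m) -
        (P m ^ 2 + P (m - 1) ^ 2 - 2 * x * P m * P (m - 1))) := by
      apply mul_pos
      · linarith
      · linarith
    rw [h2] at h3
    nlinarith [sq_nonneg (P (m + 1) - P (m - 1))]
  have hQM : P (M + 1) ^ 2 + P M ^ 2 - 2 * x * P (M + 1) * P M ≤ P M ^ 2 := by
    have p1 := pos M (by omega)
    have p2 := pos (M + 1) le_rfl
    have h := step2 M le_rfl
    have h1 : P (M + 1) ≤ x * P M := by
      refine le_trans h ?_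
      have : Real.exp (-τ * ((M : ℝ) / (M + N))) ≤ 1 := by
        rw [Real.exp_le_one_iff]
        have : 0 ≤ τ * ((M : ℝ) / (M + N)) := by positivity
        linarith
      calc x * Real.exp (-τ * ((M : ℝ) / (M + N))) * P M ≤ x * 1 * P M :=
            mul_le_mul_of_nonneg_right (mul_le_mul_of_nonneg_left this hx0.le) p1.le
        _ = x * P M := by ring
    nlinarith [mul_pos p1 p2, mul_pos hx0 (mul_pos p1 p2)]
  have tail : ∀ j : ℕ, P (M + 1 + j) ^ 2 + P (M + j) ^ 2 - 2 * x * P (M + 1 + j) * P (M + j) ≤ P M ^ 2 := by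
    intro j
    induction j with
    | zero => simpa using hQM
    | succ j ih =>
      have h := energy (M + 1 + j) (by omega)
      have e1 : M + 1 + j - 1 = M + j := by omega
      rw [e1] at h
      have e2 : M + 1 + (j + 1) = M + 1 + j + 1 := by omega
      have e3 : M + (j + 1) = M + 1 + j := by omega
      rw [e2, e3]
      linarith
  have p1 := pos M (by omega)
  have htail2 : ∀ j : ℕ, - (P M / s) ≤ P (M + 1 + j) := by
    intro j
    have h := tail j
    have h2 : (s * P (M + 1 + j)) ^ 2 ≤ P M ^ 2 := by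
      rw [mul_pow, hs2]
      nlinarith [sq_nonneg (P (M + j) - x * P (M + 1 + j))]
    have h3 := abs_le_of_sq_le_sq' h2 p1.le
    have h4 : - P M ≤ s * P (M + 1 + j) := h3.1
    rw [← neg_div, div_le_iff₀ hs0]
    linarith
  intro m
  set B := Real.exp (2 * τ) / (x * s) *
    Real.exp (-(μ * Real.log (1 / x) + τ * (μ - Real.log (1 + μ))) * N) with hB
  have hB0 : 0 < B := by positivity
  rcases Nat.lt_or_ge m (M + 1) with h | h
  · have := pos m (by omega)
    linarith
  · obtain ⟨j, rfl⟩ := Nat.exists_eq_add_of_le h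
    refine le_trans ?_ (htail2 j)
    apply neg_le_neg
    rw [hB]
    have e : Real.exp (2 * τ) / (x * s) *
      Real.exp (-(μ * Real.log (1 / x) + τ * (μ - Real.log (1 + μ))) * N) =
      (Real.exp (2 * τ) / x *
      Real.exp (-(μ * Real.log (1 / x) + τ * (μ - Real.log (1 + μ))) * N)) / s := by
      field_simp
    rw [e]
    exact div_le_div_of_nonneg_right hPM hs0.le

end Pool.Agent.N624.SG
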